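import Mathlib

/-! Multigraphs given by tail and head maps: cuts, parities, balanced orientations, joins. -/

set_option autoImplicit false

open Finset

namespace Pool.Agent.P.MP_ad841b_co

variable {V E : Type*} [Fintype E] [DecidableEq V] [DecidableEq E]

/-- The edges with exactly one end in `Y`. -/
def edgeCut (t h : E → V) (Y : Finset V) : Finset E :=
  univ.filter fun e => (t e ∈ Y ∧ h e ∉ Y) ∨ (t e ∉ Y ∧ h e ∈ Y)

/-- Kronecker delta. -/
def dl (a v : V) : ℤ := if a = v then 1 else 0

/-- Signed incidence. -/
def inc (t h : E → V) (e : E) (v : V) : ℤ := dl (t e) v - dl (h e) v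

/-- Net outflow. -/
def dv (t h : E → V) (x : E → ℤ) (v : V) : ℤ := ∑ e, inc t h e v * x e

/-- Degree parity in an edge set. -/
def par (t h : E → V) (K : Finset E) (v : V) : ZMod 2 := ∑ e ∈ K, ((inc t h e v : ℤ) : ZMod 2)

/-- Delta modulo two. -/
def d2 (a v : V) : ZMod 2 := ((dl a v : ℤ) : ZMod 2)

lemma z2_add_self (x : ZMod 2) : x + x = 0 := by revert x; decide

lemma z2_neg (x : ZMod 2) : -x = x := by revert x; decide

lemma z2_cases (x : ZMod 2) : x = 0 ∨ x = 1 := by revert x; decide

lemma d2_self (a : V) : d2 a a = 1 := by simp [d2, dl]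

lemma d2_ne {a v : V} (hv : a ≠ v) : d2 a v = 0 := by simp [d2, dl, hv]

omit [Fintype E] [DecidableEq E] in
lemma inc_cast (t h : E → V) (e : E) (v : V) :
    ((inc t h e v : ℤ) : ZMod 2) = d2 (t e) v + d2 (h e) v := by
  simp only [inc, d2]
  push_cast
  rw [sub_eq_add_neg, z2_neg]

omit [DecidableEq E] in
lemma mem_cut_single (t h : E → V) (e : E) (v : V) :
    e ∈ edgeCut t h {v} ↔ inc t h e v ≠ 0 := by
  simp only [edgeCut, mem_filter, mem_univ, true_and, mem_singleton, inc, dl]
  by_cases h1 : t e = v <;> by_cases h2 : h e = v <;> simp [h1, h2]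

omit [Fintype E] [DecidableEq E] in
/-- An edge at `a` that is not a loop: its other end and its sign. -/
lemma other_end (t h : E → V) {e : E} {a : V} (he : inc t h e a ≠ 0) :
    ∃ (b : V) (s : ℤ), b ≠ a ∧ (s = 1 ∨ s = -1) ∧ (∀ v, inc t h e v * s = dl a v - dl b v) ∧
      ∀ v, ((inc t h e v : ℤ) : ZMod 2) = d2 a v + d2 b v := by
  by_cases h1 : t e = a <;> by_cases h2 : h e = a
  · simp [inc, h1, h2] at he
  · refine ⟨h e, 1, h2, Or.inl rfl, fun v => ?_, fun v => ?_⟩
    · simp [inc, h1]
    · rw [inc_cast, h1]
  · refine ⟨t e, -1, h1, Or.inr rfl, fun v => ?_, fun v => ?_⟩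
    · simp [inc, h2]
    · rw [inc_cast, h2, add_comm]
  · simp [inc, dl, h1, h2] at he

omit [Fintype E] in
lemma par_erase (t h : E → V) {K : Finset E} {e : E} (he : e ∈ K) (v : V) :
    par t h (K.erase e) v = par t h K v + ((inc t h e v : ℤ) : ZMod 2) := by
  have := Finset.add_sum_erase K (fun e => ((inc t h e v : ℤ) : ZMod 2)) he
  simp only [par]
  rw [← this, add_comm _ (∑ _ ∈ _, _), add_assoc, z2_add_self, add_zero]

omit [Fintype E] in
lemma par_insert (t h : E → V) {K : Finset E} {e : E} (he : e ∉ K) (v : V) :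
    par t h (insert e K) v = par t h K v + ((inc t h e v : ℤ) : ZMod 2) := by
  simp only [par]
  rw [sum_insert he, add_comm]

omit [Fintype E] in
lemma par_sdiff (t h : E → V) {K J : Finset E} (hJ : J ⊆ K) (v : V) :
    par t h (K \ J) v = par t h K v + par t h J v := by
  simp only [par]
  rw [← sum_sdiff hJ, add_assoc, z2_add_self, add_zero]

omit [Fintype E] in
lemma par_symmDiff (t h : E → V) (K J : Finset E) (v : V) :
    par t h (symmDiff K J) v = par t h K v + par t h J v := by
  have h1 : symmDiff K J = (K ∪ J) \ (K ∩ J) := by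
    ext e; simp [Finset.mem_symmDiff]; tauto
  rw [h1, par_sdiff t h (inter_subset_union)]
  simp only [par]
  rw [sum_union_inter]

omit [Fintype E] [DecidableEq E] in
lemma exists_inc_of_par (t h : E → V) {K : Finset E} {a : V} (ha : par t h K a = 1) :
    ∃ e ∈ K, inc t h e a ≠ 0 := by
  by_contra hc
  push Not at hc
  have : par t h K a = 0 := sum_eq_zero fun e he => by simp [hc e he]
  rw [this] at ha
  exact absurd ha (by decide)

lemma dv_add_single (t h : E → V) (x : E → ℤ) (e : E) (s : ℤ) (v : V) :
    dv t h (fun f => x f + if f = e then s else 0) v = dv t h x v + inc t h e v * s := by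
  simp only [dv, mul_add, sum_add_distrib, mul_ite, mul_zero, sum_ite_eq', mem_univ, if_true]

/-- Balanced orientation of an edge set with at most two odd vertices. -/
lemma orient (t h : E → V) : ∀ (n : ℕ) (K : Finset E), K.card = n → ∀ s u : V,
    (∀ v, par t h K v = d2 s v + d2 u v) →
    ∃ σ : E → ℤ, (∀ e ∈ K, σ e = 1 ∨ σ e = -1) ∧ (∀ e ∉ K, σ e = 0) ∧
      ∀ v, dv t h σ v = dl s v - dl u v := by
  intro n
  induction n with
  | zero =>
    intro K hK s u hp
    rw [card_eq_zero] at hK
    subst hK
    have hsu : s = u := by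
      by_contra hne
      have := hp s
      rw [d2_self, d2_ne (Ne.symm hne)] at this
      simp [par] at this
    exact ⟨fun _ => 0, by simp, by simp, fun v => by simp [dv, hsu]⟩
  | succ n ih =>
    intro K hK s u hp
    have step : ∀ e ∈ K, ∀ (a b : V) (sg : ℤ), (sg = 1 ∨ sg = -1) →
        (∀ v, par t h (K.erase e) v = d2 a v + d2 b v) →
        (∀ v, dl a v - dl b v + inc t h e v * sg = dl s v - dl u v) →
        ∃ σ : E → ℤ, (∀ e ∈ K, σ e = 1 ∨ σ e = -1) ∧ (∀ e ∉ K, σ e = 0) ∧
          ∀ v, dv t h σ v = dl s v - dl u v := by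
      intro e he a b sg hsg hpar hdv
      obtain ⟨σ, h1, h2, h3⟩ := ih (K.erase e) (by rw [card_erase_of_mem he]; omega) a b hpar
      refine ⟨fun f => σ f + if f = e then sg else 0, fun f hf => ?_, fun f hf => ?_, fun v => ?_⟩
      · by_cases hfe : f = e
        · subst hfe
          simpa [h2 f (by simp)] using hsg
        · simpa [hfe] using h1 f (by simp [hfe, hf])
      · have hfe : f ≠ e := fun h' => hf (h' ▸ he)
        simp [hfe, h2 f (by simp [hf])]
      · rw [dv_add_single, h3, hdv]
    by_cases hsu : s = u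
    · obtain ⟨e, he⟩ : K.Nonempty := card_pos.1 (by omega)
      refine step e he (h e) (t e) 1 (Or.inl rfl) (fun v => ?_) (fun v => ?_)
      · rw [par_erase t h he, hp, hsu, z2_add_self, zero_add, inc_cast, add_comm]
      · simp [inc, hsu]
    · obtain ⟨e, he, hi⟩ := exists_inc_of_par t h (K := K) (a := s)
        (by rw [hp, d2_self, d2_ne (Ne.symm hsu), add_zero])
      obtain ⟨b, sg, -, hsg, h1, h2⟩ := other_end t h hi
      refine step e he b u sg hsg (fun v => ?_) (fun v => ?_)
      · rw [par_erase t h he, hp, h2]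
        have := z2_add_self (d2 s v)
        linear_combination this
      · rw [h1]; ring

omit [Fintype E] in
/-- An odd vertex is joined to another odd vertex. -/
lemma pairing (t h : E → V) : ∀ (n : ℕ) (K : Finset E), K.card = n → ∀ a : V,
    par t h K a = 1 → ∃ b, b ≠ a ∧ par t h K b = 1 ∧ ∃ J ⊆ K, ∀ v, par t h J v = d2 a v + d2 b v := by
  intro n
  induction n with
  | zero =>
    intro K hK a ha
    rw [card_eq_zero] at hK
    subst hK
    simp [par] at ha
  | succ n ih =>
    intro K hK a ha
    obtain ⟨e, he, hi⟩ := exists_inc_of_par t h ha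
    obtain ⟨a', sg, hne, -, -, h2⟩ := other_end t h hi
    rcases z2_cases (par t h K a') with h0 | h1
    · have h3 : par t h (K.erase e) a' = 1 := by
        rw [par_erase t h he, h0, h2, d2_self, d2_ne (Ne.symm hne)]; simp
      obtain ⟨b, hb, hb1, J, hJ, hJp⟩ := ih (K.erase e) (by rw [card_erase_of_mem he]; omega) a' h3
      have hba : b ≠ a := by
        rintro rfl
        rw [par_erase t h he, ha, h2, d2_self, d2_ne hne] at hb1
        exact absurd hb1 (by decide)
      refine ⟨b, hba, ?_, insert e J, ?_, fun v => ?_⟩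
      · rw [par_erase t h he, h2, d2_ne (Ne.symm hba), d2_ne (Ne.symm hb)] at hb1
        simpa using hb1
      · exact insert_subset he (hJ.trans (erase_subset _ _))
      · rw [par_insert t h (fun h' => by simpa using hJ h'), hJp, h2]
        have := z2_add_self (d2 a' v)
        linear_combination this
    · refine ⟨a', hne, h1, {e}, by simpa using he, fun v => ?_⟩
      simp [par, h2]

/-- A join from `a` to `s` with at most one edge at `s`. -/
lemma join_once (t h : E → V) (s : V) : ∀ (n : ℕ) (K : Finset E), K.card = n → ∀ a : V,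
    (∀ v, par t h K v = d2 a v + d2 s v) →
    ∃ J ⊆ K, (∀ v, par t h J v = d2 a v + d2 s v) ∧ (J ∩ edgeCut t h {s}).card ≤ 1 := by
  intro n
  induction n with
  | zero =>
    intro K hK a hp
    rw [card_eq_zero] at hK
    subst hK
    exact ⟨∅, by simp, hp, by simp⟩
  | succ n ih =>
    intro K hK a hp
    by_cases has : a = s
    · exact ⟨∅, by simp, fun v => by simp [par, has, z2_add_self], by simp⟩
    obtain ⟨e, he, hi⟩ := exists_inc_of_par t h (K := K) (a := a)
      (by rw [hp, d2_self, d2_ne (Ne.symm has), add_zero])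
    obtain ⟨a', sg, hne, hsg, h1, h2⟩ := other_end t h hi
    by_cases ha's : a' = s
    · refine ⟨{e}, by simpa using he, fun v => by simp [par, h2, ha's], ?_⟩
      exact (card_le_card inter_subset_left).trans (by simp)
    obtain ⟨J, hJ, hJp, hJc⟩ := ih (K.erase e) (by rw [card_erase_of_mem he]; omega) a'
      (fun v => by
        rw [par_erase t h he, hp, h2]
        have := z2_add_self (d2 a v)
        linear_combination this)
    refine ⟨insert e J, insert_subset he (hJ.trans (erase_subset _ _)), fun v => ?_, ?_⟩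
    · rw [par_insert t h (fun h' => by simpa using hJ h'), hJp, h2]
      have := z2_add_self (d2 a' v)
      linear_combination this
    · have hes : e ∉ edgeCut t h {s} := by
        rw [mem_cut_single]
        have := h1 s
        simp only [dl, has, ha's, if_false, sub_zero, mul_eq_zero] at this
        rcases this with h0 | h0
        · simpa using h0
        · rcases hsg with h' | h' <;> omega
      rwa [insert_inter_of_notMem hes]

end Pool.Agent.P.MP_ad841b_co
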