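import Pool.Agent.P.MP_ad841b_co.Basic

/-! Integral flows with capacities, and the repair of one pair of odd vertices. -/

set_option autoImplicit false

open Finset

namespace Pool.Agent.P.MP_ad841b_co

variable {V E : Type*} [Fintype V] [Fintype E] [DecidableEq V] [DecidableEq E]

/-- `+1` on edges leaving `Y`, `-1` on edges entering `Y`, `0` otherwise. -/
def sgnY (t h : E → V) (Y : Finset V) (e : E) : ℤ :=
  (if t e ∈ Y then 1 else 0) - (if h e ∈ Y then 1 else 0)

/-- Capacity of an edge out of `Y`. -/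
def capE (t h : E → V) (lo hi : E → ℤ) (Y : Finset V) (e : E) : ℤ :=
  if t e ∈ Y ∧ h e ∉ Y then hi e else if t e ∉ Y ∧ h e ∈ Y then -lo e else 0

omit [Fintype V] [DecidableEq E] in
lemma sum_dv (t h : E → V) (x : E → ℤ) (Y : Finset V) :
    ∑ v ∈ Y, dv t h x v = ∑ e, sgnY t h Y e * x e := by
  simp only [dv]
  rw [sum_comm]
  refine sum_congr rfl fun e _ => ?_
  rw [← sum_mul]
  congr 1
  simp [inc, dl, sgnY, sum_sub_distrib]

omit [Fintype V] in
lemma sum_dl (a : V) (Y : Finset V) : ∑ v ∈ Y, dl a v = if a ∈ Y then 1 else 0 := by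
  simp [dl]

lemma unit_flow (t h : E → V) (lo hi : E → ℤ) (hlo : ∀ e, lo e ≤ 0) (hhi : ∀ e, 0 ≤ hi e)
    (p q : V) (hcut : ∀ Y : Finset V, p ∈ Y → q ∉ Y → 1 ≤ ∑ e, capE t h lo hi Y e) :
    ∃ z : E → ℤ, (∀ e, lo e ≤ z e ∧ z e ≤ hi e) ∧ ∀ v, dv t h z v = dl p v - dl q v := by
  have key : ∀ (n : ℕ) (R : Finset V), (univ \ R).card = n → p ∈ R →
      (∀ w ∈ R, ∃ z : E → ℤ, (∀ e, lo e ≤ z e ∧ z e ≤ hi e) ∧ (∀ v, dv t h z v = dl p v - dl w v) ∧
        ∀ e, z e ≠ 0 → t e ∈ R ∧ h e ∈ R) →
      ∃ z : E → ℤ, (∀ e, lo e ≤ z e ∧ z e ≤ hi e) ∧ ∀ v, dv t h z v = dl p v - dl q v := by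
    intro n
    induction n with
    | zero =>
      intro R hR _ hall
      have hq : q ∈ R := by
        by_contra hq
        have : q ∈ univ \ R := by simp [hq]
        rw [card_eq_zero.1 hR] at this
        simp at this
      obtain ⟨z, h1, h2, -⟩ := hall q hq
      exact ⟨z, h1, h2⟩
    | succ n ih =>
      intro R hR hp hall
      by_cases hq : q ∈ R
      · obtain ⟨z, h1, h2, -⟩ := hall q hq
        exact ⟨z, h1, h2⟩
      have hex : ∃ e, 1 ≤ capE t h lo hi R e := by
        by_contra hc
        push Not at hc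
        have h0 : ∑ e, capE t h lo hi R e ≤ 0 := sum_nonpos fun e _ => by have := hc e; omega
        have := hcut R hp hq
        omega
      obtain ⟨e, he⟩ := hex
      have ext : ∀ (a b : V) (s : ℤ), a ∈ R → b ∉ R → (t e = a ∧ h e = b ∨ t e = b ∧ h e = a) →
          lo e ≤ s → s ≤ hi e → (∀ v, inc t h e v * s = dl a v - dl b v) →
          ∃ z : E → ℤ, (∀ e, lo e ≤ z e ∧ z e ≤ hi e) ∧ ∀ v, dv t h z v = dl p v - dl q v := by
        intro a b s ha hb hab hs1 hs2 hinc
        refine ih (insert b R) ?_ (mem_insert_of_mem hp) ?_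
        · have : univ \ insert b R = (univ \ R).erase b := by ext; simp
          rw [this, card_erase_of_mem (by simp [hb])]; omega
        · intro w hw
          rcases mem_insert.1 hw with rfl | hw
          · obtain ⟨z, h1, h2, h3⟩ := hall a ha
            have hz : z e = 0 := by
              by_contra hz
              obtain ⟨h4, h5⟩ := h3 e hz
              rcases hab with ⟨-, h6⟩ | ⟨h6, -⟩
              · exact hb (h6 ▸ h5)
              · exact hb (h6 ▸ h4)
            refine ⟨fun f => z f + if f = e then s else 0, fun f => ?_, fun v => ?_, fun f hf => ?_⟩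
            · by_cases hfe : f = e
              · subst hfe; simp [hz, hs1, hs2]
              · simpa [hfe] using h1 f
            · rw [dv_add_single, h2, hinc]; ring
            · by_cases hfe : f = e
              · subst hfe
                rcases hab with ⟨h6, h7⟩ | ⟨h6, h7⟩ <;> simp [h6, h7, ha]
              · have := h3 f (by simpa [hfe] using hf)
                exact ⟨mem_insert_of_mem this.1, mem_insert_of_mem this.2⟩
          · obtain ⟨z, h1, h2, h3⟩ := hall w hw
            exact ⟨z, h1, h2, fun f hf =>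
              ⟨mem_insert_of_mem (h3 f hf).1, mem_insert_of_mem (h3 f hf).2⟩⟩
      unfold capE at he
      split_ifs at he with h1 h2
      · exact ext (t e) (h e) 1 h1.1 h1.2 (Or.inl ⟨rfl, rfl⟩) (by have := hlo e; omega) he
          (fun v => by simp [inc])
      · exact ext (h e) (t e) (-1) h2.2 h2.1 (Or.inr ⟨rfl, rfl⟩) (by omega)
          (by have := hhi e; omega) (fun v => by simp [inc])
      · omega
  refine key _ {p} rfl (mem_singleton_self p) fun w hw => ?_
  rw [mem_singleton.1 hw]
  exact ⟨fun _ => 0, fun e => ⟨hlo e, hhi e⟩, fun v => by simp [dv], by simp⟩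

lemma multi_flow (t h : E → V) (lo hi : E → ℤ) (hlo : ∀ e, lo e ≤ 0) (hhi : ∀ e, 0 ≤ hi e)
    (p q : V) (k : ℕ) (hcut : ∀ Y : Finset V, p ∈ Y → q ∉ Y → (k : ℤ) ≤ ∑ e, capE t h lo hi Y e) :
    ∃ z : E → ℤ, (∀ e, lo e ≤ z e ∧ z e ≤ hi e) ∧ ∀ v, dv t h z v = k * (dl p v - dl q v) := by
  induction k with
  | zero => exact ⟨fun _ => 0, fun e => ⟨hlo e, hhi e⟩, fun v => by simp [dv]⟩
  | succ k ih =>
    obtain ⟨z, h1, h2⟩ := ih fun Y hp hq => by have := hcut Y hp hq; push_cast at this; omega
    obtain ⟨y, h3, h4⟩ := unit_flow t h (fun e => lo e - z e) (fun e => hi e - z e)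
      (fun e => by have := (h1 e).1; omega) (fun e => by have := (h1 e).2; omega) p q
      (fun Y hp hq => by
        have h5 := hcut Y hp hq
        have h6 := sum_dv t h z Y
        simp only [h2, ← mul_sum, sum_sub_distrib, sum_dl, hp, hq, if_true, if_false] at h6
        have h7 : ∑ e, capE t h (fun e => lo e - z e) (fun e => hi e - z e) Y e =
            ∑ e, capE t h lo hi Y e - ∑ e, sgnY t h Y e * z e := by
          rw [← sum_sub_distrib]
          refine sum_congr rfl fun e _ => ?_
          by_cases a : t e ∈ Y <;> by_cases b : h e ∈ Y <;> simp [capE, sgnY, a, b]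
          ring
        rw [h7, ← h6]
        push_cast at h5
        omega)
    refine ⟨fun e => z e + y e, fun e => ?_, fun v => ?_⟩
    · have := h3 e
      dsimp only at this ⊢
      constructor <;> omega
    · have : dv t h (fun e => z e + y e) v = dv t h z v + dv t h y v := by
        simp only [dv, mul_add, sum_add_distrib]
      rw [this, h2, h4]
      push_cast
      ring

omit [Fintype V] in
/-- Balanced orientation in which two `D`-edges at a vertex are opposite. -/
lemma orient_split (t h : E → V) (K D : Finset E) (hD : D ⊆ K) (s u : V)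
    (hp : ∀ v, par t h K v = d2 s v + d2 u v) :
    ∃ σ : E → ℤ, (∀ e ∈ K, σ e = 1 ∨ σ e = -1) ∧ (∀ e ∉ K, σ e = 0) ∧
      (∀ v, dv t h σ v = dl s v - dl u v) ∧
      ∀ v, (edgeCut t h {v} ∩ D).card = 2 → ∑ e ∈ edgeCut t h {v} ∩ D, inc t h e v * σ e = 0 := by
  classical
  let fl : E → V → Bool := fun e v =>
    decide (e ∈ edgeCut t h {v} ∩ D ∧ (edgeCut t h {v} ∩ D).card = 2)
  let t' : E → V × Bool := fun e => (t e, fl e (t e))
  let h' : E → V × Bool := fun e => (h e, fl e (h e))
  have hinc : ∀ e v b, inc t' h' e (v, b) = if fl e v = b then inc t h e v else 0 := by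
    intro e v b
    simp only [inc, dl, t', h', Prod.mk.injEq]
    by_cases a : t e = v <;> by_cases c : h e = v <;> by_cases d : fl e v = b <;> simp [a, c, d]
  have hsum : ∀ (v : V) (f : E → ℤ), ∑ e, inc t' h' e (v, true) * f e =
      if (edgeCut t h {v} ∩ D).card = 2 then ∑ e ∈ edgeCut t h {v} ∩ D, inc t h e v * f e
      else 0 := by
    intro v f
    simp only [hinc, fl, decide_eq_true_eq]
    split_ifs with hc
    · simp only [hc, and_true, ite_mul, zero_mul]
      rw [← sum_filter]
      congr 1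
      ext e
      simp
    · simp [hc]
  have hpt : ∀ v, par t' h' K (v, true) = 0 := by
    intro v
    simp only [par, hinc, fl, decide_eq_true_eq]
    by_cases hc : (edgeCut t h {v} ∩ D).card = 2
    · simp only [hc, and_true]
      have h1 : ∀ e ∈ K, (((if e ∈ edgeCut t h {v} ∩ D then inc t h e v else 0 : ℤ)) : ZMod 2) =
          if e ∈ edgeCut t h {v} ∩ D then 1 else 0 := by
        intro e _
        split_ifs with he
        · obtain ⟨b, -, hb, -, -, h2⟩ :=
            other_end t h ((mem_cut_single t h e v).1 (mem_inter.1 he).1)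
          rw [h2, d2_self, d2_ne hb, add_zero]
        · simp
      rw [sum_congr rfl h1, ← sum_filter, sum_const]
      have h2 : K.filter (fun e => e ∈ edgeCut t h {v} ∩ D) = edgeCut t h {v} ∩ D := by
        ext e
        simp only [mem_filter, mem_inter]
        exact ⟨fun a => a.2, fun a => ⟨hD a.2, a⟩⟩
      rw [h2, hc]
      decide
    · simp [hc]
  have hpf : ∀ v, par t' h' K (v, false) = par t h K v := by
    intro v
    have : par t h K v = par t' h' K (v, false) + par t' h' K (v, true) := by
      simp only [par, ← sum_add_distrib, hinc]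
      refine sum_congr rfl fun e _ => ?_
      cases fl e v <;> simp
    rw [this, hpt, add_zero]
  obtain ⟨σ, h1, h2, h3⟩ := orient t' h' _ K rfl (s, false) (u, false) (by
    rintro ⟨v, b⟩
    cases b
    · rw [hpf, hp]; simp [d2, dl]
    · rw [hpt]; simp [d2, dl])
  have h4 : ∀ v, dv t' h' σ (v, true) = 0 := fun v => by rw [h3]; simp [dl]
  refine ⟨σ, h1, h2, fun v => ?_, fun v hc => ?_⟩
  · have : dv t h σ v = dv t' h' σ (v, false) + dv t' h' σ (v, true) := by
      simp only [dv, ← sum_add_distrib, hinc]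
      refine sum_congr rfl fun e _ => ?_
      cases fl e v <;> simp
    rw [this, h4, h3]
    simp [dl]
  · have := h4 v
    simp only [dv] at this
    rwa [hsum, if_pos hc] at this

/-- The main flow lemma. -/
lemma flow_of_join (t h : E → V) (K D : Finset E) (hD : D ⊆ K) (s u : V)
    (hp : ∀ v, par t h K v = d2 s v + d2 u v)
    (h1 : ∀ Y : Finset V, (edgeCut t h Y).card ≠ 1)
    (h3 : ∀ Y : Finset V, (edgeCut t h Y).card = 3 → u ∈ Y → s ∉ Y →
      ∃ v, edgeCut t h Y = edgeCut t h {v})
    (hv : ∀ v, (edgeCut t h {v}).card = 3 → edgeCut t h {v} ⊆ K → ¬ edgeCut t h {v} ⊆ D) :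
    ∃ x : E → ℤ, (∀ v, dv t h x v = 0) ∧ (∀ e, |x e| ≤ 3) ∧ ∀ e ∈ D, 2 ≤ |x e| := by
  obtain ⟨σ, hσ1, hσ0, hσd, hσs⟩ := orient_split t h K D hD s u hp
  have hσ : ∀ e, σ e = 1 ∨ σ e = -1 ∨ σ e = 0 := fun e => by
    by_cases he : e ∈ K
    · rcases hσ1 e he with a | a <;> simp [a]
    · simp [hσ0 e he]
  let lo : E → ℤ := fun e => if e ∈ D then min (σ e) 0 else -3 - 2 * σ e
  let hi : E → ℤ := fun e => if e ∈ D then max (σ e) 0 else 3 - 2 * σ e
  have hlo : ∀ e, lo e ≤ 0 := fun e => by
    simp only [lo]; split_ifs <;> rcases hσ e with a | a | a <;> simp [a]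
  have hhi : ∀ e, 0 ≤ hi e := fun e => by
    simp only [hi]; split_ifs <;> rcases hσ e with a | a | a <;> simp [a]
  obtain ⟨z, hz1, hz2⟩ := multi_flow t h lo hi hlo hhi u s 2 (fun Y hu hs => by
    by_contra hc
    push Not at hc
    have hnn : ∀ e, 0 ≤ capE t h lo hi Y e := fun e => by
      unfold capE; split_ifs
      · exact hhi e
      · have := hlo e; omega
      · exact le_rfl
    have hle : ∀ e, capE t h lo hi Y e ≤ 1 := fun e => by
      have := single_le_sum (f := capE t h lo hi Y) (fun e _ => hnn e) (mem_univ e)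
      push_cast at hc
      omega
    have hbal : ∑ e, sgnY t h Y e * σ e = -1 := by
      rw [← sum_dv]
      simp only [hσd, sum_sub_distrib, sum_dl, hu, hs, if_true, if_false]
      ring
    have hedge : ∀ e ∈ edgeCut t h Y, e ∈ K ∧
        ((capE t h lo hi Y e = 1 ∧ sgnY t h Y e * σ e = 1) ∨
          (capE t h lo hi Y e = 0 ∧ sgnY t h Y e * σ e = -1 ∧ e ∈ D)) := by
      intro e he
      have h5 := hle e
      have h6 : e ∈ D → σ e ≠ 0 := fun hd => by rcases hσ1 e (hD hd) with a | a <;> omega
      have h7 : σ e ≠ 0 → e ∈ K := fun hd => by by_contra hk; exact hd (hσ0 e hk)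
      simp only [edgeCut, mem_filter, mem_univ, true_and] at he
      simp only [capE, sgnY, lo, hi] at h5 ⊢
      rcases he with ⟨a, b⟩ | ⟨a, b⟩ <;> by_cases hd : e ∈ D <;> rcases hσ e with c | c | c <;>
        simp_all
    have hout : ∀ e ∉ edgeCut t h Y, capE t h lo hi Y e = 0 ∧ sgnY t h Y e = 0 := by
      intro e he
      simp only [edgeCut, mem_filter, mem_univ, true_and] at he
      by_cases a : t e ∈ Y <;> by_cases b : h e ∈ Y <;> simp_all [capE, sgnY]
    have hcard : ((edgeCut t h Y).card : ℤ) = 2 * ∑ e, capE t h lo hi Y e + 1 := by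
      have : ∑ e, (2 * capE t h lo hi Y e - sgnY t h Y e * σ e) =
          ∑ e ∈ edgeCut t h Y, (1 : ℤ) := by
        rw [← sum_subset (subset_univ (edgeCut t h Y))]
        · refine sum_congr rfl fun e he => ?_
          rcases (hedge e he).2 with ⟨a, b⟩ | ⟨a, b, -⟩ <;> rw [a, b] <;> rfl
        · intro e _ he
          simp [hout e he]
      rw [sum_sub_distrib, ← mul_sum, hbal] at this
      simp only [sum_const, nsmul_eq_mul, mul_one] at this
      omega
    have hge : 0 ≤ ∑ e, capE t h lo hi Y e := sum_nonneg fun e _ => hnn e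
    have hc1 : ∑ e, capE t h lo hi Y e = 1 := by
      have := h1 Y
      push_cast at hc
      omega
    have hc3 : (edgeCut t h Y).card = 3 := by omega
    obtain ⟨v, hvY⟩ := h3 Y hc3 hu hs
    have h8 := hv v (hvY ▸ hc3) (hvY ▸ fun e he => (hedge e he).1)
    rw [← hvY, not_subset] at h8
    obtain ⟨e0, he0, he0D⟩ := h8
    have h9 : capE t h lo hi Y e0 = 1 := by
      rcases (hedge e0 he0).2 with ⟨a, -⟩ | ⟨-, -, a⟩
      · exact a
      · exact absurd a he0D
    have h10 : ∀ e ∈ (edgeCut t h Y).erase e0, sgnY t h Y e * σ e = -1 ∧ e ∈ D := by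
      intro e he
      obtain ⟨hne, he'⟩ := mem_erase.1 he
      rcases (hedge e he').2 with ⟨a, -⟩ | ⟨-, a⟩
      · have := sum_le_sum_of_subset_of_nonneg (f := capE t h lo hi Y)
          (subset_univ ({e, e0} : Finset E)) (fun e _ _ => hnn e)
        rw [sum_pair hne] at this
        omega
      · exact a
    have h11 : edgeCut t h {v} ∩ D = (edgeCut t h Y).erase e0 := by
      ext e
      rw [← hvY, mem_inter]
      constructor
      · rintro ⟨a, b⟩
        exact mem_erase.2 ⟨fun c => he0D (c ▸ b), a⟩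
      · intro a
        exact ⟨mem_of_mem_erase a, (h10 e a).2⟩
    have h12 : ((edgeCut t h Y).erase e0).card = 2 := by rw [card_erase_of_mem he0, hc3]
    have h13 := hσs v (by rw [h11, h12])
    rw [h11] at h13
    have h14 : ∀ e ∈ (edgeCut t h Y).erase e0,
        inc t h e v * σ e = if v ∈ Y then -1 else 1 := by
      intro e he
      have a := (h10 e he).1
      have b := mem_of_mem_erase he
      have c : e ∈ edgeCut t h {v} := hvY ▸ b
      simp only [edgeCut, mem_filter, mem_univ, true_and, mem_singleton] at b c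
      simp only [sgnY] at a
      simp only [inc, dl]
      rcases b with ⟨b1, b2⟩ | ⟨b1, b2⟩ <;> rcases c with ⟨c1, c2⟩ | ⟨c1, c2⟩ <;>
        simp_all
    rw [sum_congr rfl h14, sum_const, h12] at h13
    split_ifs at h13 <;> simp at h13)
  refine ⟨fun e => 2 * σ e + z e, fun v => ?_, fun e => ?_, fun e he => ?_⟩
  · have : dv t h (fun e => 2 * σ e + z e) v = 2 * dv t h σ v + dv t h z v := by
      simp only [dv, mul_add, sum_add_distrib, mul_sum]
      congr 1
      exact sum_congr rfl fun e _ => by ring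
    rw [this, hσd, hz2]
    push_cast
    ring
  · have := hz1 e
    simp only [lo, hi] at this
    rw [abs_le]
    split_ifs at this <;> rcases hσ e with a | a | a <;> simp [a] at this ⊢ <;> omega
  · have := hz1 e
    simp only [lo, hi, he, if_true] at this
    rw [le_abs]
    rcases hσ1 e (hD he) with a | a <;> simp [a] at this ⊢ <;> omega

end Pool.Agent.P.MP_ad841b_co
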