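import Pool.Agent.P.MP_ad841b_co.Flow

/-! Choice of the two covering edge sets and of the partition of the edges. -/

set_option autoImplicit false

open Finset

namespace Pool.Agent.P.MP_ad841b_co

variable {V E : Type*} [Fintype V] [Fintype E] [DecidableEq V] [DecidableEq E]

omit [Fintype V] in
lemma par_eq_card (t h : E → V) (K : Finset E) (v : V) :
    par t h K v = ((edgeCut t h {v} ∩ K).card : ZMod 2) := by
  have h1 : ∀ e ∈ K, ((inc t h e v : ℤ) : ZMod 2) = if e ∈ edgeCut t h {v} then 1 else 0 := by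
    intro e _
    split_ifs with he
    · obtain ⟨b, -, hb, -, -, h2⟩ := other_end t h ((mem_cut_single t h e v).1 he)
      rw [h2, d2_self, d2_ne hb, add_zero]
    · rw [mem_cut_single, not_not] at he
      simp [he]
  rw [par, sum_congr rfl h1, ← sum_filter, sum_const, filter_mem_eq_inter, inter_comm]
  simp

omit [Fintype V] in
lemma par_of_sub (t h : E → V) {K : Finset E} {v : V} (h3 : (edgeCut t h {v}).card = 3)
    (hK : edgeCut t h {v} ⊆ K) : par t h K v = 1 := by
  rw [par_eq_card, inter_eq_left.2 hK, h3]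
  decide

/-- A vertex of degree three sees `K`. -/
def Good (t h : E → V) (K : Finset E) (v : V) : Prop :=
  (edgeCut t h {v}).card = 3 → (edgeCut t h {v} ∩ K).Nonempty

omit [Fintype V] in
lemma fix_one (t h : E → V) (K1 K2 : Finset E) (hcov : ∀ e, e ∈ K1 ∨ e ∈ K2) (s u : V)
    (hp : ∀ v, par t h K2 v = d2 s v + d2 u v) :
    ∃ L : Finset E, (∀ e, e ∈ L ∨ e ∈ K2) ∧ (∀ v, par t h L v = par t h K1 v) ∧ Good t h L s ∧
      (Good t h K1 u → Good t h L u) := by
  by_cases hg : Good t h K1 s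
  · exact ⟨K1, hcov, fun _ => rfl, hg, id⟩
  simp only [Good, Classical.not_imp, not_nonempty_iff_eq_empty] at hg
  obtain ⟨h3, h0⟩ := hg
  have hns : ∀ e ∈ edgeCut t h {s}, e ∉ K1 := fun e he hk => by
    have : e ∈ edgeCut t h {s} ∩ K1 := mem_inter.2 ⟨he, hk⟩
    rw [h0] at this
    simp at this
  obtain ⟨Q, a, hQ, hQ1, hQp, hQg⟩ : ∃ (Q : Finset E) (a : V), Q ⊆ K2 ∧ Q ⊆ K1 ∧
      (∀ v, par t h Q v = d2 u v + d2 a v) ∧
      ∀ C ⊆ K2 \ Q, Good t h K1 u → Good t h (symmDiff K1 C) u := by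
    by_cases hq : ∃ q ∈ edgeCut t h {u}, q ∈ K1 ∧ q ∈ K2
    · obtain ⟨q, hq, hq1, hq2⟩ := hq
      obtain ⟨b, -, -, -, -, hb⟩ := other_end t h ((mem_cut_single t h q u).1 hq)
      refine ⟨{q}, b, by simpa using hq2, by simpa using hq1, fun v => by simp [par, hb],
        fun C hC _ _ => ⟨q, mem_inter.2 ⟨hq, ?_⟩⟩⟩
      have : q ∉ C := fun hc => by simpa using hC hc
      simp [Finset.mem_symmDiff, hq1, this]
    · push Not at hq
      refine ⟨∅, u, by simp, by simp, fun v => by simp [par, z2_add_self], fun C hC hg h3' => ?_⟩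
      obtain ⟨e, he⟩ := hg h3'
      obtain ⟨he1, he2⟩ := mem_inter.1 he
      have : e ∉ C := fun hc => hq e he1 he2 (mem_sdiff.1 (hC hc)).1
      exact ⟨e, mem_inter.2 ⟨he1, by simp [Finset.mem_symmDiff, he2, this]⟩⟩
  obtain ⟨J, hJ, hJp, hJc⟩ := join_once t h s _ (K2 \ Q) rfl a (fun v => by
    rw [par_sdiff t h hQ, hp, hQp]
    have := z2_add_self (d2 u v)
    linear_combination this)
  have hC : ∀ v, par t h ((K2 \ Q) \ J) v = 0 := fun v => by
    rw [par_sdiff t h hJ, par_sdiff t h hQ, hp, hQp, hJp]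
    have h1 := z2_add_self (d2 u v)
    have h2 := z2_add_self (d2 s v)
    have h3 := z2_add_self (d2 a v)
    linear_combination h1 + h2 + h3
  refine ⟨symmDiff K1 ((K2 \ Q) \ J), fun e => ?_, fun v => ?_, fun _ => ?_,
    hQg _ sdiff_subset⟩
  · by_cases h2 : e ∈ K2
    · exact Or.inr h2
    · left
      have := (hcov e).resolve_right h2
      simp [Finset.mem_symmDiff, this, h2]
  · rw [par_symmDiff, hC, add_zero]
  · have : ∃ e ∈ edgeCut t h {s}, e ∉ J := by
      by_contra hc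
      push Not at hc
      have : J ∩ edgeCut t h {s} = edgeCut t h {s} := inter_eq_right.2 hc
      rw [this] at hJc
      omega
    obtain ⟨e, he, heJ⟩ := this
    have h1 := hns e he
    have h2 := (hcov e).resolve_left h1
    have h4 : e ∉ Q := fun hq => h1 (hQ1 hq)
    exact ⟨e, mem_inter.2 ⟨he, by simp [Finset.mem_symmDiff, h1, h2, h4, heJ]⟩⟩

omit [Fintype V] in
lemma fix_all (t h : E → V) (K1 K2 : Finset E) (hcov : ∀ e, e ∈ K1 ∨ e ∈ K2) (s u : V)
    (hp : ∀ v, par t h K2 v = d2 s v + d2 u v) :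
    ∃ L : Finset E, (∀ e, e ∈ L ∨ e ∈ K2) ∧ (∀ v, par t h L v = par t h K1 v) ∧
      ∀ v, Good t h L v := by
  obtain ⟨L1, h1, h2, h3, -⟩ := fix_one t h K1 K2 hcov s u hp
  obtain ⟨L2, h4, h5, h6, h7⟩ := fix_one t h L1 K2 h1 u s (fun v => by rw [hp, add_comm])
  refine ⟨L2, h4, fun v => by rw [h5, h2], fun v => ?_⟩
  by_cases hs : s = v
  · exact hs ▸ h7 h3
  by_cases hu : u = v
  · exact hu ▸ h6
  intro hc
  by_contra hn
  have : edgeCut t h {v} ⊆ K2 := fun e he =>
    (h4 e).resolve_left fun hl => hn ⟨e, mem_inter.2 ⟨he, hl⟩⟩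
  have h8 := par_of_sub t h hc this
  rw [hp, d2_ne hs, d2_ne hu] at h8
  exact absurd h8 (by decide)

/-- The partition of the edges into the two sets carrying large values. -/
lemma choose_parts (t h : E → V) (K1 K2 : Finset E) (hcov : ∀ e, e ∈ K1 ∨ e ∈ K2)
    (hg1 : ∀ v, Good t h K1 v) (hg2 : ∀ v, Good t h K2 v)
    (hz : ∀ v w, par t h K1 v = 1 → par t h K2 v = 1 → par t h K1 w = 1 → par t h K2 w = 1 →
      v = w) :
    ∃ A ⊆ K1, ∃ B ⊆ K2, (∀ e, e ∈ A ∨ e ∈ B) ∧
      (∀ v, (edgeCut t h {v}).card = 3 → edgeCut t h {v} ⊆ K1 → ¬ edgeCut t h {v} ⊆ A) ∧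
      (∀ v, (edgeCut t h {v}).card = 3 → edgeCut t h {v} ⊆ K2 → ¬ edgeCut t h {v} ⊆ B) := by
  classical
  let P : V × Bool → Prop := fun d =>
    (edgeCut t h {d.1}).card = 3 ∧ edgeCut t h {d.1} ⊆ (if d.2 then K1 else K2)
  let I : V → Finset E := fun v => edgeCut t h {v} ∩ (K1 ∩ K2)
  let Z : V → Prop := fun v => par t h K1 v = 1 ∧ par t h K2 v = 1
  have hdem : ∀ v, 2 * (univ.filter fun b => P (v, b)).card ≤ (I v).card + if Z v then 1 else 0 := by
    intro v
    have hone : ∀ (L1 L2 : Finset E), (edgeCut t h {v}).card = 3 → edgeCut t h {v} ⊆ L1 →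
        Good t h L2 v →
        2 ≤ (edgeCut t h {v} ∩ (L1 ∩ L2)).card +
          if par t h L1 v = 1 ∧ par t h L2 v = 1 then 1 else 0 := by
      intro L1 L2 a b c
      have e1 : edgeCut t h {v} ∩ (L1 ∩ L2) = edgeCut t h {v} ∩ L2 := by
        rw [← inter_assoc, inter_eq_left.2 b]
      have e2 := card_pos.2 (c a)
      rw [e1]
      by_cases e3 : (edgeCut t h {v} ∩ L2).card = 1
      · rw [if_pos ⟨par_of_sub t h a b, by rw [par_eq_card, e3]; rfl⟩]
        omega
      · omega
    by_cases p1 : P (v, true) <;> by_cases p2 : P (v, false)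
    · have e1 : I v = edgeCut t h {v} :=
        inter_eq_left.2 (subset_inter (by simpa using p1.2) (by simpa using p2.2))
      have e2 : Z v := ⟨par_of_sub t h p1.1 (by simpa using p1.2),
        par_of_sub t h p1.1 (by simpa using p2.2)⟩
      have e3 : (univ.filter fun b => P (v, b)).card ≤ 2 := (card_filter_le _ _).trans (by simp)
      have e4 := p1.1
      rw [e1, if_pos e2]
      dsimp only at e4
      omega
    · have e3 : (univ.filter fun b => P (v, b)) = {true} := by
        ext b; cases b <;> simp [p1, p2]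
      rw [e3]
      simpa using hone K1 K2 p1.1 (by simpa using p1.2) (hg2 v)
    · have e3 : (univ.filter fun b => P (v, b)) = {false} := by
        ext b; cases b <;> simp [p1, p2]
      rw [e3]
      have := hone K2 K1 p2.1 (by simpa using p2.2) (hg1 v)
      rw [inter_comm K2 K1] at this
      simpa [I, Z, and_comm] using this
    · have e3 : (univ.filter fun b => P (v, b)) = ∅ := by
        ext b; cases b <;> simp [p1, p2]
      rw [e3]
      simp
  have hZ : ∑ v, (if Z v then 1 else 0) ≤ 1 := by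
    rw [← card_filter]
    exact card_le_one.2 fun a ha b hb =>
      hz a b (mem_filter.1 ha).2.1 (mem_filter.1 ha).2.2 (mem_filter.1 hb).2.1 (mem_filter.1 hb).2.2
  have hall : ∀ T : Finset {d // P d}, T.card ≤ (T.biUnion fun d => I d.1.1).card := by
    intro T
    let U : Finset V := T.image fun d => d.1.1
    let W := T.biUnion fun d => I d.1.1
    have e1 : T.card ≤ ∑ v ∈ U, (univ.filter fun b => P (v, b)).card := by
      rw [card_eq_sum_card_fiberwise (f := fun d : {d // P d} => d.1.1) (t := U)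
        (fun d hd => mem_image_of_mem _ hd)]
      refine sum_le_sum fun v _ => ?_
      refine card_le_card_of_injOn (fun d => d.1.2) (fun d hd => ?_) (fun a ha b hb hab => ?_)
      · have := (mem_filter.1 (mem_coe.1 hd)).2
        simp only [coe_filter, mem_univ, true_and, Set.mem_ofPred_eq]
        rw [← this]
        exact d.2
      · have h1 := (mem_filter.1 (mem_coe.1 ha)).2
        have h2 := (mem_filter.1 (mem_coe.1 hb)).2
        exact Subtype.ext (Prod.ext (h1.trans h2.symm) hab)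
    have e2 : ∑ v ∈ U, (I v).card ≤ 2 * W.card := by
      have : ∑ v ∈ U, (I v).card = ∑ e ∈ W, (U.filter fun v => e ∈ I v).card := by
        have h1 : ∀ v ∈ U, (I v).card = (W.filter fun e => e ∈ I v).card := by
          intro v hv
          obtain ⟨d, hd, rfl⟩ := mem_image.1 hv
          congr 1
          ext e
          simp only [mem_filter, W, mem_biUnion]
          exact ⟨fun a => ⟨⟨d, hd, a⟩, a⟩, fun a => a.2⟩
        rw [sum_congr rfl h1]
        simp only [card_filter]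
        exact sum_comm
      rw [this, mul_comm, ← smul_eq_mul, ← sum_const]
      refine sum_le_sum fun e _ => ?_
      refine (card_le_card (t := {t e, h e}) fun v hv => ?_).trans (card_le_two)
      have := (mem_inter.1 (mem_filter.1 hv).2).1
      simp only [edgeCut, mem_filter, mem_univ, true_and, mem_singleton] at this
      rcases this with ⟨a, -⟩ | ⟨-, a⟩ <;> simp [a]
    have e3 : ∑ v ∈ U, (if Z v then 1 else 0) ≤ 1 :=
      (sum_le_sum_of_subset (subset_univ U)).trans hZ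
    have e4 := sum_le_sum fun v (_ : v ∈ U) => hdem v
    rw [← mul_sum, sum_add_distrib] at e4
    change T.card ≤ W.card
    omega
  obtain ⟨f, hf, hfI⟩ := (all_card_le_biUnion_card_iff_exists_injective _).1 hall
  refine ⟨K1.filter fun e => ∀ d : {d // P d}, d.1.2 = true → f d ≠ e, filter_subset _ _,
    K2.filter fun e => ∀ d : {d // P d}, d.1.2 = false → f d ≠ e, filter_subset _ _,
    fun e => ?_, fun v a b c => ?_, fun v a b c => ?_⟩
  · by_contra hc
    simp only [mem_filter, not_or, not_and, not_forall, not_not] at hc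
    obtain ⟨c1, c2⟩ := hc
    have k : ∀ d, f d = e → e ∈ K1 ∧ e ∈ K2 := fun d hd =>
      mem_inter.1 (mem_inter.1 (hd ▸ hfI d)).2
    have k12 : e ∈ K1 ∧ e ∈ K2 := by
      rcases hcov e with a | a
      · obtain ⟨d, -, hd⟩ := c1 a
        exact k d hd
      · obtain ⟨d, -, hd⟩ := c2 a
        exact k d hd
    obtain ⟨d1, a1, b1⟩ := c1 k12.1
    obtain ⟨d2, a2, b2⟩ := c2 k12.2
    have := hf (b1.trans b2.symm)
    rw [this, a2] at a1
    exact absurd a1 (by decide)
  · have hP : P (v, true) := ⟨a, by simpa using b⟩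
    exact (mem_filter.1 (c (mem_inter.1 (hfI ⟨_, hP⟩)).1)).2 ⟨_, hP⟩ rfl rfl
  · have hP : P (v, false) := ⟨a, by simpa using b⟩
    exact (mem_filter.1 (c (mem_inter.1 (hfI ⟨_, hP⟩)).1)).2 ⟨_, hP⟩ rfl rfl

/-- The odd vertices of an edge set. -/
def odds (t h : E → V) (K : Finset E) : Finset V := univ.filter fun v => par t h K v = 1

omit [Fintype E] [DecidableEq E] in
lemma mem_odds (t h : E → V) (K : Finset E) (v : V) : v ∈ odds t h K ↔ par t h K v = 1 := by
  simp [odds]

omit [Fintype E] [DecidableEq E] in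
lemma even_odds (t h : E → V) (K : Finset E) : Even (odds t h K).card := by
  have h1 : ∑ v, par t h K v = 0 := by
    simp only [par, inc_cast]
    rw [sum_comm]
    refine sum_eq_zero fun e _ => ?_
    simp [d2, dl, sum_add_distrib, z2_add_self]
  have h2 : ∑ v, par t h K v = ((odds t h K).card : ZMod 2) := by
    rw [odds, card_filter]
    push_cast
    refine sum_congr rfl fun v _ => ?_
    rcases z2_cases (par t h K v) with a | a <;> simp [a]
  rw [h2] at h1
  exact (ZMod.natCast_eq_zero_iff_even).1 h1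

omit [Fintype E] [DecidableEq E] in
lemma pair_of_odds [Nonempty V] (t h : E → V) (K : Finset E) (hK : (odds t h K).card ≤ 2) :
    ∃ s u, (∀ v, par t h K v = d2 s v + d2 u v) ∧ (s ≠ u → s ∈ odds t h K ∧ u ∈ odds t h K) := by
  have he := even_odds t h K
  have : (odds t h K).card = 0 ∨ (odds t h K).card = 2 := by
    obtain ⟨k, hk⟩ := he
    omega
  rcases this with a | a
  · obtain ⟨s⟩ := ‹Nonempty V›
    refine ⟨s, s, fun v => ?_, fun b => absurd rfl b⟩
    rw [z2_add_self]
    rcases z2_cases (par t h K v) with b | b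
    · exact b
    · have := (mem_odds t h K v).2 b
      rw [card_eq_zero.1 a] at this
      simp at this
  · obtain ⟨s, u, hsu, e⟩ := card_eq_two.1 a
    refine ⟨s, u, fun v => ?_, fun _ => by simp [e]⟩
    have h1 := mem_odds t h K v
    rw [e] at h1
    by_cases hs : s = v
    · subst hs
      rw [d2_self, d2_ne (Ne.symm hsu), add_zero]
      exact h1.1 (by simp)
    by_cases hu : u = v
    · subst hu
      rw [d2_self, d2_ne hsu, zero_add]
      exact h1.1 (by simp)
    rw [d2_ne hs, d2_ne hu, add_zero]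
    rcases z2_cases (par t h K v) with b | b
    · exact b
    · have := h1.2 b
      simp only [mem_insert, mem_singleton] at this
      rcases this with c | c
      · exact absurd c.symm hs
      · exact absurd c.symm hu

/-- The target of the normalisation. -/
def Nice (t h : E → V) (S : Finset V) (L1 L2 : Finset E) : Prop :=
  (∀ e, e ∈ L1 ∨ e ∈ L2) ∧ (odds t h L1).card ≤ 2 ∧ (odds t h L2).card ≤ 2 ∧
    (odds t h L1 ∩ odds t h L2).card ≤ 1 ∧ odds t h L1 ⊆ S ∧ odds t h L2 ⊆ S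

omit [Fintype E] in
lemma nice_four (t h : E → V) (S : Finset V) (K1 K2 : Finset E) (hcov : ∀ e, e ∈ K1 ∨ e ∈ K2)
    (heq : odds t h K1 = odds t h K2) (h4 : (odds t h K1).card = 4) (hS : odds t h K1 ⊆ S) :
    ∃ L1 L2, Nice t h S L1 L2 := by
  obtain ⟨a, ha⟩ : (odds t h K1).Nonempty := card_pos.1 (by omega)
  obtain ⟨b, hba, hb, J, hJ, hJp⟩ := pairing t h _ K1 rfl a ((mem_odds t h K1 a).1 ha)
  have hb' := (mem_odds t h K1 b).2 hb
  have hab : ∀ v, d2 a v + d2 b v = 1 ↔ v = a ∨ v = b := by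
    intro v
    by_cases h1 : a = v
    · subst h1
      simp [d2_self, d2_ne hba]
    by_cases h2 : b = v
    · subst h2
      simp [d2_self, d2_ne h1]
    simp [d2_ne h1, d2_ne h2, Ne.symm h1, Ne.symm h2]
  have hp12 : ∀ v, par t h K1 v = par t h K2 v := by
    intro v
    have h1 := mem_odds t h K1 v
    rw [heq, mem_odds] at h1
    rcases z2_cases (par t h K1 v) with x | x <;> rcases z2_cases (par t h K2 v) with y | y <;>
      simp_all
  have e1 : odds t h (symmDiff K2 J) = odds t h K1 \ {a, b} := by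
    ext v
    rw [mem_sdiff, mem_odds, mem_odds, par_symmDiff, hJp, ← hp12, mem_insert, mem_singleton,
      ← hab]
    have h1 : d2 a v + d2 b v = 1 → par t h K1 v = 1 := fun h' => by
      rcases (hab v).1 h' with rfl | rfl
      · exact (mem_odds t h K1 _).1 ha
      · exact hb
    generalize par t h K1 v = x at h1 ⊢
    generalize d2 a v + d2 b v = y at h1 ⊢
    revert x y
    decide
  have e2 : odds t h (symmDiff (symmDiff K1 K2) J) = {a, b} := by
    ext v
    rw [mem_odds, par_symmDiff, par_symmDiff, hJp, ← hp12, z2_add_self, zero_add, hab]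
    simp
  have e3 : ({a, b} : Finset V) ⊆ odds t h K1 := by
    intro v hv
    simp only [mem_insert, mem_singleton] at hv
    rcases hv with rfl | rfl <;> assumption
  refine ⟨symmDiff K2 J, symmDiff (symmDiff K1 K2) J, fun e => ?_, ?_, ?_, ?_, ?_, ?_⟩
  · have h1 := hcov e
    have h2 : e ∈ J → e ∈ K1 := fun x => hJ x
    simp only [Finset.mem_symmDiff]
    tauto
  · rw [e1, card_sdiff_of_subset e3, card_pair (Ne.symm hba)]
    omega
  · rw [e2]; exact card_le_two
  · rw [e1, e2]; simp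
  · rw [e1]; exact sdiff_subset.trans hS
  · rw [e2]; exact e3.trans hS

omit [Fintype E] in
lemma exists_nice (t h : E → V) (S : Finset V) (hS : S.card ≤ 4) (K1 K2 : Finset E)
    (hcov : ∀ e, e ∈ K1 ∨ e ∈ K2) (h1 : odds t h K1 ⊆ S) (h2 : odds t h K2 ⊆ S) :
    ∃ L1 L2, Nice t h S L1 L2 := by
  have e3 : odds t h (symmDiff K1 K2) = symmDiff (odds t h K1) (odds t h K2) := by
    ext v
    rw [Finset.mem_symmDiff, mem_odds, mem_odds, mem_odds, par_symmDiff]
    rcases z2_cases (par t h K1 v) with x | x <;> rcases z2_cases (par t h K2 v) with y | y <;>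
      simp [x, y]
  set O1 := odds t h K1 with hO1
  set O2 := odds t h K2 with hO2
  have c1 : O1.card = (O1 ∩ O2).card + (O1 \ O2).card := (card_inter_add_card_sdiff _ _).symm
  have c2 : O2.card = (O1 ∩ O2).card + (O2 \ O1).card := by
    rw [inter_comm]; exact (card_inter_add_card_sdiff _ _).symm
  have c3 : (symmDiff O1 O2).card = (O1 \ O2).card + (O2 \ O1).card := by
    rw [symmDiff_def, sup_eq_union, card_union_of_disjoint disjoint_sdiff_sdiff]
  have c4 : (O1 ∪ O2).card ≤ 4 := (card_le_card (union_subset h1 h2)).trans hS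
  have c5 := card_union_add_card_inter O1 O2
  obtain ⟨k1, hk1⟩ := even_odds t h K1
  obtain ⟨k2, hk2⟩ := even_odds t h K2
  rw [← hO1] at hk1
  rw [← hO2] at hk2
  have h3 : symmDiff O1 O2 ⊆ S := symmDiff_le_sup.trans (union_subset h1 h2)
  have cov13 : ∀ e, e ∈ K1 ∨ e ∈ symmDiff K1 K2 := fun e => by
    have := hcov e; simp only [Finset.mem_symmDiff]; tauto
  have cov23 : ∀ e, e ∈ K2 ∨ e ∈ symmDiff K1 K2 := fun e => by
    have := hcov e; simp only [Finset.mem_symmDiff]; tauto
  have i13 : O1 ∩ symmDiff O1 O2 = O1 \ O2 := by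
    ext v; simp only [mem_inter, Finset.mem_symmDiff, mem_sdiff]; tauto
  have i23 : O2 ∩ symmDiff O1 O2 = O2 \ O1 := by
    ext v; simp only [mem_inter, Finset.mem_symmDiff, mem_sdiff]; tauto
  by_cases a12 : O1.card ≤ 2 ∧ O2.card ≤ 2 ∧ (O1 ∩ O2).card ≤ 1
  · exact ⟨K1, K2, hcov, a12.1, a12.2.1, a12.2.2, h1, h2⟩
  by_cases a13 : O1.card ≤ 2 ∧ (symmDiff O1 O2).card ≤ 2 ∧ (O1 \ O2).card ≤ 1
  · exact ⟨K1, symmDiff K1 K2, cov13, a13.1, e3 ▸ a13.2.1, by rw [e3, ← hO1, i13]; exact a13.2.2,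
      h1, e3 ▸ h3⟩
  by_cases a23 : O2.card ≤ 2 ∧ (symmDiff O1 O2).card ≤ 2 ∧ (O2 \ O1).card ≤ 1
  · exact ⟨K2, symmDiff K1 K2, cov23, a23.1, e3 ▸ a23.2.1, by rw [e3, ← hO2, i23]; exact a23.2.2,
      h2, e3 ▸ h3⟩
  have : (O1 ∩ O2).card = 4 ∨ (O1 \ O2).card = 4 ∨ (O2 \ O1).card = 4 := by omega
  rcases this with b | b | b
  · refine nice_four t h S K1 K2 hcov ?_ (by rw [← hO1]; omega) h1
    have x1 : (O1 \ O2).card = 0 := by omega
    have x2 : (O2 \ O1).card = 0 := by omega
    exact Subset.antisymm (sdiff_eq_empty_iff_subset.1 (card_eq_zero.1 x1))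
      (sdiff_eq_empty_iff_subset.1 (card_eq_zero.1 x2))
  · refine nice_four t h S K1 (symmDiff K1 K2) cov13 ?_ (by rw [← hO1]; omega) h1
    have : O2 = ∅ := card_eq_zero.1 (by omega)
    rw [e3, this, ← hO1]
    exact (symmDiff_bot O1).symm
  · refine nice_four t h S K2 (symmDiff K1 K2) cov23 ?_ (by rw [← hO2]; omega) h2
    have : O1 = ∅ := card_eq_zero.1 (by omega)
    rw [e3, this, ← hO2]
    exact (bot_symmDiff O2).symm

/-- Integer form of the main theorem. -/
theorem int_flows (t h : E → V) (S : Finset V) (hS : S.card ≤ 4)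
    (h1 : ∀ Y : Finset V, (edgeCut t h Y).card ≠ 1)
    (h3 : ∀ Y : Finset V, (edgeCut t h Y).card = 3 → (∃ a ∈ S, a ∈ Y) → (∃ b ∈ S, b ∉ Y) →
      ∃ v, edgeCut t h Y = edgeCut t h {v})
    (K1 K2 : Finset E) (hcov : ∀ e, e ∈ K1 ∨ e ∈ K2) (hK1 : odds t h K1 ⊆ S)
    (hK2 : odds t h K2 ⊆ S) :
    ∃ x y : E → ℤ, (∀ v, dv t h x v = 0) ∧ (∀ v, dv t h y v = 0) ∧
      ∀ e, |x e| ≤ 3 ∧ |y e| ≤ 3 ∧ (2 ≤ |x e| ∨ 2 ≤ |y e|) := by
  rcases isEmpty_or_nonempty V with hV | hV
  · exact ⟨0, 0, fun v => hV.elim v, fun v => hV.elim v, fun e => hV.elim (t e)⟩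
  obtain ⟨L1, L2, c, n1, n2, n3, s1, s2⟩ := exists_nice t h S hS K1 K2 hcov hK1 hK2
  obtain ⟨a1, b1, p1, q1⟩ := pair_of_odds t h L1 n1
  obtain ⟨a2, b2, p2, q2⟩ := pair_of_odds t h L2 n2
  obtain ⟨M1, c1, r1, g1⟩ := fix_all t h L1 L2 c a2 b2 p2
  obtain ⟨M2, c2, r2, g2⟩ := fix_all t h L2 M1 (fun e => (c1 e).symm) a1 b1
    (fun v => by rw [r1, p1])
  obtain ⟨A, hA, B, hB, hAB, vA, vB⟩ := choose_parts t h M1 M2 (fun e => (c2 e).symm) g1 g2
    (fun v w x1 x2 y1 y2 => by
      rw [r1] at x1 y1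
      rw [r2] at x2 y2
      exact card_le_one.1 n3 v (by simp [mem_odds, x1, x2]) w (by simp [mem_odds, y1, y2]))
  obtain ⟨x, x1, x2, x3⟩ := flow_of_join t h M1 A hA a1 b1 (fun v => by rw [r1, p1]) h1
    (fun Y y3 yu ys => by
      have := q1 (fun e => ys (e ▸ yu))
      exact h3 Y y3 ⟨b1, s1 this.2, yu⟩ ⟨a1, s1 this.1, ys⟩) vA
  obtain ⟨y, y1, y2, y3⟩ := flow_of_join t h M2 B hB a2 b2 (fun v => by rw [r2, p2]) h1
    (fun Y y3 yu ys => by
      have := q2 (fun e => ys (e ▸ yu))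
      exact h3 Y y3 ⟨b2, s2 this.2, yu⟩ ⟨a2, s2 this.1, ys⟩) vB
  exact ⟨x, y, x1, y1, fun e => ⟨x2 e, y2 e, (hAB e).imp (x3 e) (y3 e)⟩⟩

end Pool.Agent.P.MP_ad841b_co
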